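import Pool.Agent.Helper3.AK.Goals4

/-!
# Project AK, PMB: the bound with all parameters
-/

set_option linter.unusedVariables false

namespace Pool.Agent.Helper3.AK

open Equiv

namespace PMB65

/-- the indicator of a proposition -/
noncomputable def ind (p : Prop) : ℝ := open Classical in if p then 1 else 0

theorem ind_nonneg (p : Prop) : 0 ≤ ind p := by
  unfold ind
  split_ifs <;> norm_num

theorem ind_pos {p : Prop} (h : p) : ind p = 1 := by
  unfold ind
  rw [if_pos h]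

theorem ind_le (p : Prop) : ind p ≤ 1 := by
  unfold ind
  split_ifs <;> norm_num

/-- the union bound -/
theorem ind_union {p a b c d : Prop} (h : p → ¬ a → ¬ b → ¬ c → d) :
    ind p ≤ ind a + (ind b + (ind c + ind d)) := by
  have ha := ind_nonneg a
  have hb := ind_nonneg b
  have hc := ind_nonneg c
  have hd := ind_nonneg d
  have hp := ind_le p
  by_cases h1 : p
  · by_cases h2 : a
    · rw [ind_pos h2]; linarith
    · by_cases h3 : b
      · rw [ind_pos h3]; linarith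
      · by_cases h4 : c
        · rw [ind_pos h4]; linarith
        · rw [ind_pos (h h1 h2 h3 h4)]; linarith
  · have : ind p = 0 := by unfold ind; rw [if_neg h1]
    linarith

theorem sum_ind {ι : Type} [Fintype ι] (p : ι → Prop) :
    ∑ i, ind (p i) = (Nat.card {i // p i} : ℝ) := by
  classical
  have h : ∀ i, ind (p i) = if p i then (1 : ℝ) else 0 := fun i => by
    unfold ind
    split_ifs <;> rfl
  simp only [h]
  rw [Finset.sum_boole, Nat.card_eq_fintype_card, Fintype.card_subtype]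

variable {n r : ℕ}

theorem card_map (c : Pts n r) : (Finset.univ.map c).card = 2 * r := by
  rw [Finset.card_map, Finset.card_univ, Fintype.card_prod, Fintype.card_fin, Fintype.card_bool,
    mul_comm]

theorem card_pts (n r : ℕ) : (Fintype.card (Pts n r) : ℝ) = (n.descFactorial (2 * r) : ℝ) := by
  rw [Fintype.card_embedding_eq, Fintype.card_fin, Fintype.card_prod, Fintype.card_fin,
    Fintype.card_bool, mul_comm r 2]

theorem card_pairs (n : ℕ) : (Fintype.card (Fin 2 → Alt n) : ℝ) = (Nat.card (Alt n) : ℝ) ^ 2 := by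
  rw [Fintype.card_fun, Fintype.card_fin, Nat.cast_pow, ← Nat.card_eq_fintype_card]

/-- the event of HB -/
def EH (x : Fin 2 → Alt n) (g : ℕ → Letter 2) (c : Pts n r) (m h₁ h₂ : ℕ) (η : ℝ) : Prop :=
  ∃ t ≤ m, ∃ H : Finset (Fin n), h₁ ≤ H.card ∧ H.card ≤ h₂ ∧
    (∀ i : Fin 2, ((H.filter fun v => (x i : Perm (Fin n)) v ∉ H).card : ℝ) ≤ η * H.card) ∧
    h₁ ≤ (Finset.univ.filter fun q => pz x g t (c q) ∈ H).card

/-- the martingale event -/
def EM (x : Fin 2 → Alt n) (g : ℕ → Letter 2) (S : Finset (Fin n)) (κ m : ℕ) (z : ℝ) : Prop :=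
  2 * (κ + 1) * 3 ^ (κ + 1) * ((pot x g S m : ℝ) + 2 * S.card * (κ + 1) * z) <
    ∑ b ∈ Finset.Ico 1 (m / (κ + 1)), (sh κ x g S (b * (κ + 1)) : ℝ)

/-- the event of XT -/
def EX (x : Fin 2 → Alt n) (g : ℕ → Letter 2) (S : Finset (Fin n)) (m b : ℕ) : Prop :=
  2 * (b : ℤ) ≤ ex x g S m

/-- the deterministic implication -/
theorem det (h2 : S_C1) (h5 : S_DP) {m κ' B' : ℕ} {η z : ℝ} (hr : 1 ≤ r) (hB : 1 ≤ B')
    (hη : 0 < η) (hη4 : η < 1 / 4) (hBκ : (B' : ℝ) < (1 + η) ^ κ' * (1 - 2 * η))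
    (hm : 2 ≤ m / (2 * κ' + 1)) (hz : 0 ≤ z)
    (hP : 2 * (2 * κ' + 1) * 3 ^ (2 * κ' + 1) * ((2 * B' + 2) * r + 4 * r * (2 * κ' + 1) * z) +
      2 * r ≤ η * r * ((m / (2 * κ' + 1) : ℕ) - 1 : ℝ))
    (x : Fin 2 → Alt n) (g : ℕ → Letter 2) (c : Pts n r) (hg : Red g m)
    (hM : Mev x (fun _ => 1) g m c) (hX : ¬ EX x g (Finset.univ.map c) m (B' * r))
    (h1 : ¬ EM x g (Finset.univ.map c) (2 * κ') m z) (h0 : ¬ EM x g (Finset.univ.map c) 0 m z) :
    EH x g c m ⌈(1 - 2 * η) * r⌉₊ (B' * r) η := by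
  unfold EX at hX
  rw [not_le] at hX
  unfold EM at h1 h0
  rw [not_lt] at h1 h0
  rw [card_map] at h1 h0
  have hpot : (pot x g (Finset.univ.map c) m : ℝ) ≤ (2 * B' + 2) * r := by
    have h := (h2 n x g (Finset.univ.map c) m hg m le_rfl).2.1
    rw [card_map] at h
    have h' : (pot x g (Finset.univ.map c) m : ℤ) ≤ ((2 * B' + 2) * r : ℕ) := by
      push_cast at h hX ⊢
      linarith
    exact_mod_cast h'
  have hr0 : (0 : ℝ) ≤ r := Nat.cast_nonneg r
  have hκ0 : (0 : ℝ) ≤ κ' := Nat.cast_nonneg κ'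
  have hB0 : (0 : ℝ) ≤ B' := Nat.cast_nonneg B'
  set X : ℝ := (2 * B' + 2) * r + 4 * r * (2 * κ' + 1) * z with hXd
  have hpow : (3 : ℝ) ≤ 3 ^ (2 * κ' + 1) := by
    calc (3 : ℝ) = 3 ^ 1 := by norm_num
      _ ≤ 3 ^ (2 * κ' + 1) := pow_le_pow_right₀ (by norm_num) (by omega)
  have hrz : 0 ≤ (r : ℝ) * z := mul_nonneg hr0 hz
  have hX0 : 0 ≤ X := by
    have : 0 ≤ (r : ℝ) * z * κ' := mul_nonneg hrz hκ0
    rw [hXd]
    nlinarith [mul_nonneg hB0 hr0]
  refine h5 n r m κ' B' η x g c hr hB hη (by linarith) hBκ hm hg hM hX ?_ ?_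
  · push_cast at h1
    refine h1.trans (le_trans ?_ (le_trans (le_add_of_nonneg_right (b := 2 * (r : ℝ)) (by positivity))
      hP))
    refine mul_le_mul_of_nonneg_left ?_ (by positivity)
    rw [hXd]
    have : 2 * (2 * (r : ℝ)) * (2 * κ' + 1) * z = 4 * r * (2 * κ' + 1) * z := by ring
    linarith
  · have e1 : ∑ b ∈ Finset.Ico 1 (m / (0 + 1)), (sh 0 x g (Finset.univ.map c) (b * (0 + 1)) : ℝ) =
        ∑ t ∈ Finset.Ico 1 m, (sh 0 x g (Finset.univ.map c) t : ℝ) := by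
      rw [zero_add, Nat.div_one]
      exact Finset.sum_congr rfl fun t _ => by rw [mul_one]
    rw [e1] at h0
    push_cast at h0
    have e2 : 2 * ((0 : ℝ) + 1) * 3 ^ (0 + 1) * ((pot x g (Finset.univ.map c) m : ℝ) +
        2 * (2 * r) * (0 + 1) * z) ≤ 6 * X := by
      have h3 : (pot x g (Finset.univ.map c) m : ℝ) + 2 * (2 * r) * (0 + 1) * z ≤ X := by
        rw [hXd]
        nlinarith [mul_nonneg hrz hκ0]
      have h4 : 2 * ((0 : ℝ) + 1) * 3 ^ (0 + 1) = 6 := by norm_num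
      rw [h4]
      linarith
    have e3 : 6 * X ≤ 2 * (2 * κ' + 1) * 3 ^ (2 * κ' + 1) * X := by
      refine mul_le_mul_of_nonneg_right ?_ hX0
      nlinarith [mul_nonneg hκ0 (by linarith : (0 : ℝ) ≤ 3 ^ (2 * κ' + 1))]
    linarith [h0.trans (e2.trans e3)]

end PMB65

open PMB65 in
/-- the bound with all parameters -/
theorem pmb (h1 : S_XT) (h2 : S_C1) (h3 : S_LMB) (h4 : S_HB) (h5 : S_DP) : S_PMB := by
  intro n r m κ' B' η hr hB hη hη4 hBκ hm hn hBn hP
  have hn1 : 1 ≤ n := by omega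
  have h2r : 2 * r ≤ n := by nlinarith
  set z : ℝ := 2 * r * Real.log n with hz
  have hlog : 0 ≤ Real.log n := Real.log_natCast_nonneg n
  have hz0 : 0 ≤ z := by positivity
  set NA : ℝ := (Nat.card (Alt n) : ℝ) ^ 2 with hNA
  set P : ℝ := (n.descFactorial (2 * r) : ℝ) with hPd
  have hNA0 : 0 < NA := by
    have : 0 < Nat.card (Alt n) := Nat.card_pos
    positivity
  have hP0 : 0 < P := by
    have : 0 < n.descFactorial (2 * r) := Nat.descFactorial_pos.2 h2r
    rw [hPd]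
    exact_mod_cast this
  set T1 : ℝ := (2 * Real.exp 1 * ((2 * r * (m + 1) : ℕ) : ℝ) ^ 2 / ((B' * r : ℕ) * n)) ^ (B' * r)
    with hT1
  set T3 : ℝ := (m + 1) *
      ∑ h ∈ Finset.Icc ⌈(1 - 2 * η) * r⌉₊ (B' * r), (4 * h / n : ℝ) ^ h *
        (n : ℝ) ^ (2 * ⌊η * h⌋₊) * 4 ^ r * ((h : ℝ) / n) ^ ⌈(1 - 2 * η) * r⌉₊ with hT3
  have hr1 : 1 ≤ ⌈(1 - 2 * η) * r⌉₊ := by
    refine Nat.one_le_ceil_iff.2 ?_
    have : (1 : ℝ) ≤ r := by exact_mod_cast hr
    have : 0 < 1 - 2 * η := by linarith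
    positivity
  -- the four parts
  have b1 : ∑ x : Fin 2 → Alt n, ∑ c : Pts n r, ER m [] (fun w =>
      ind (EX x (gl w) (Finset.univ.map c) m (B' * r))) ≤ NA * P * T1 := by
    simp only [← er_sum]
    refine le_trans (er_mono m [] redL_nil _ (fun _ => NA * P * T1) fun w _ _ _ => ?_)
      (er_const _ _ _).le
    rw [Finset.sum_comm]
    have hc : ∀ c : Pts n r, ∑ x : Fin 2 → Alt n, ind (EX x (gl w) (Finset.univ.map c) m (B' * r)) ≤
        NA * T1 := by
      intro c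
      rw [sum_ind]
      have h := h1 n m (B' * r) (gl w) (Finset.univ.map c) (Nat.mul_pos hB hr) (by
        rw [card_map]
        nlinarith)
      rw [card_map] at h
      exact h
    refine le_trans (Finset.sum_le_sum fun c _ => hc c) ?_
    rw [Finset.sum_const, Finset.card_univ, nsmul_eq_mul, card_pts]
    exact le_of_eq (by ring)
  have bM : ∀ κ : ℕ, ∑ x : Fin 2 → Alt n, ∑ c : Pts n r, ER m [] (fun w =>
      ind (EM x (gl w) (Finset.univ.map c) κ m z)) ≤ NA * P * Real.exp (-z) := by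
    intro κ
    have hc : ∀ (x : Fin 2 → Alt n) (c : Pts n r), ER m [] (fun w =>
        ind (EM x (gl w) (Finset.univ.map c) κ m z)) ≤ Real.exp (-z) := by
      intro x c
      have h := h3 n x (Finset.univ.map c) κ m z (by rw [card_map]; omega) hz0
      refine le_trans (le_of_eq ?_) h
      congr 1
    refine le_trans (Finset.sum_le_sum fun x _ => Finset.sum_le_sum fun c _ => hc x c) ?_
    rw [Finset.sum_const, Finset.sum_const, Finset.card_univ, Finset.card_univ, nsmul_eq_mul,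
      nsmul_eq_mul, card_pts, card_pairs]
    exact le_of_eq (by ring)
  have b3 : ∑ x : Fin 2 → Alt n, ∑ c : Pts n r, ER m [] (fun w =>
      ind (EH x (gl w) c m ⌈(1 - 2 * η) * r⌉₊ (B' * r) η)) ≤ NA * P * T3 := by
    simp only [← er_sum]
    refine le_trans (er_mono m [] redL_nil _ (fun _ => NA * P * T3) fun w _ _ _ => ?_)
      (er_const _ _ _).le
    rw [← Fintype.sum_prod_type' (f := fun (x : Fin 2 → Alt n) (c : Pts n r) =>
      ind (EH x (gl w) c m ⌈(1 - 2 * η) * r⌉₊ (B' * r) η)), sum_ind]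
    exact h4 n r ⌈(1 - 2 * η) * r⌉₊ ⌈(1 - 2 * η) * r⌉₊ (B' * r) m η (gl w) h2r hr1 hBn hη.le
  -- the union bound
  have hU : ∑ x : Fin 2 → Alt n, ∑ c : Pts n r, ER m [] (fun w =>
      ind (Mev x (fun _ => 1) (gl w) m c)) ≤
      NA * P * T1 + (NA * P * Real.exp (-z) + (NA * P * Real.exp (-z) + NA * P * T3)) := by
    have hpt : ∀ (x : Fin 2 → Alt n) (c : Pts n r), ER m [] (fun w =>
        ind (Mev x (fun _ => 1) (gl w) m c)) ≤
        ER m [] (fun w => ind (EX x (gl w) (Finset.univ.map c) m (B' * r))) +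
        (ER m [] (fun w => ind (EM x (gl w) (Finset.univ.map c) (2 * κ') m z)) +
        (ER m [] (fun w => ind (EM x (gl w) (Finset.univ.map c) 0 m z)) +
        ER m [] (fun w => ind (EH x (gl w) c m ⌈(1 - 2 * η) * r⌉₊ (B' * r) η)))) := by
      intro x c
      rw [← er_add, ← er_add, ← er_add]
      refine er_mono m [] redL_nil _ _ fun w _ hlen hred => ind_union fun hM hX hE1 hE0 => ?_
      have hlen' : w.length = m := by simpa using hlen
      have hg : Red (gl w) m := hlen' ▸ red_gl hred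
      exact det h2 h5 hr hB hη hη4 hBκ hm hz0 hP x (gl w) c hg hM hX hE1 hE0
    refine le_trans (Finset.sum_le_sum fun x _ => Finset.sum_le_sum fun c _ => hpt x c) ?_
    simp only [Finset.sum_add_distrib]
    exact add_le_add b1 (add_le_add (bM (2 * κ')) (add_le_add (bM 0) b3))
  have hPM : PM n r m = (∑ x : Fin 2 → Alt n, ∑ c : Pts n r, ER m [] (fun w =>
      ind (Mev x (fun _ => 1) (gl w) m c))) / (NA * P) := rfl
  rw [hPM, div_le_iff₀ (mul_pos hNA0 hP0)]
  refine hU.trans (le_of_eq ?_)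
  ring

end Pool.Agent.Helper3.AK
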